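import Mathlib

set_option autoImplicit false

/-!
# The minimum of independent variables, and exponential variables
-/

namespace Pool.Agent.Y31.ST

open MeasureTheory ProbabilityTheory Set
open scoped ENNReal

theorem meas_Ioi (E : Measure ℝ) (A : Set ℝ) : Measurable (fun γ : ℝ => E (A ∩ Ioi γ)) := by
  apply Antitone.measurable
  intro a b hab
  exact measure_mono (inter_subset_inter_right _ (Ioi_subset_Ioi hab))

theorem meas_Iic (E : Measure ℝ) (A : Set ℝ) : Measurable (fun γ : ℝ => E (A ∩ Iic γ)) := by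
  apply Monotone.measurable
  intro a b hab
  exact measure_mono (inter_subset_inter_right _ (Iic_subset_Iic.mpr hab))

theorem split_meas (E : Measure ℝ) {A : Set ℝ} (γ : ℝ) :
    E A = E (A ∩ Ioi γ) + E (A ∩ Iic γ) := by
  have h := measure_inter_add_sdiff (μ := E) A (measurableSet_Ioi (a := γ))
  rw [← h]
  congr 2
  ext x
  simp

/-- swapping the order of integration over `δ < γ` -/
theorem swap_int (E : Measure ℝ) [IsProbabilityMeasure E] [NullSingletonClass E] {A B : Set ℝ} {H : ℝ → ℝ≥0∞} (hH : Measurable H) :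
    ∫⁻ δ in A, ∫⁻ γ in B ∩ Ioi δ, H γ ∂E ∂E = ∫⁻ γ in B, E (A ∩ Iic γ) * H γ ∂E := by
  have h1 : ∀ δ : ℝ, ∫⁻ γ in B ∩ Ioi δ, H γ ∂E = ∫⁻ γ in B, (Ioi δ).indicator H γ ∂E := by
    intro δ
    rw [lintegral_indicator measurableSet_Ioi, Measure.restrict_restrict measurableSet_Ioi,
      inter_comm]
  simp only [h1]
  rw [lintegral_lintegral_swap]
  · apply lintegral_congr
    intro γ
    have h2 : ∀ δ : ℝ, (Ioi δ).indicator H γ = (Iio γ).indicator (fun _ => H γ) δ := by
      intro δ
      simp only [indicator_apply, mem_Ioi, mem_Iio]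
    simp only [h2]
    rw [lintegral_indicator measurableSet_Iio, setLIntegral_const,
      Measure.restrict_apply measurableSet_Iio, mul_comm]
    congr 1
    rw [inter_comm]
    apply measure_congr
    have h3 : (Iio γ : Set ℝ) =ᵐ[E] Iic γ := Iio_ae_eq_Iic
    exact (Filter.EventuallyEq.refl _ A).inter h3
  · apply Measurable.aemeasurable
    have h3 : (Function.uncurry fun δ γ : ℝ => (Ioi δ).indicator H γ)
        = {p : ℝ × ℝ | p.1 < p.2}.indicator (fun p => H p.2) := by
      funext p
      rfl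
    rw [h3]
    exact (hH.comp measurable_snd).indicator (measurableSet_lt measurable_fst measurable_snd)

/-- the minimum of independent variables with the same diffuse law -/
theorem minId {ι : Type} [DecidableEq ι] (E : Measure ℝ) [IsProbabilityMeasure E] [NullSingletonClass E]
    (s : Finset ι) (hs : s.Nonempty) : ∀ t : ι → Set ℝ, (∀ i, MeasurableSet (t i)) →
    ∏ j ∈ s, E (t j) = ∑ k ∈ s, ∫⁻ γ in t k, ∏ j ∈ s.erase k, E (t j ∩ Ioi γ) ∂E := by
  induction hs using Finset.Nonempty.cons_induction with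
  | singleton a =>
    intro t ht
    simp
  | cons i s hi hs ih =>
    intro t ht
    have hH : ∀ k, Measurable (fun γ : ℝ => ∏ j ∈ s.erase k, E (t j ∩ Ioi γ)) := fun k =>
      Finset.measurable_fun_prod _ fun j _ => meas_Ioi E (t j)
    -- the right hand side
    have hR1 : ∑ k ∈ Finset.cons i s hi, ∫⁻ γ in t k, ∏ j ∈ (Finset.cons i s hi).erase k,
        E (t j ∩ Ioi γ) ∂E = ∫⁻ γ in t i, ∏ j ∈ s, E (t j ∩ Ioi γ) ∂E +
        ∑ k ∈ s, ∫⁻ γ in t k, E (t i ∩ Ioi γ) * ∏ j ∈ s.erase k, E (t j ∩ Ioi γ) ∂E := by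
      rw [Finset.sum_cons, Finset.erase_cons]
      congr 1
      apply Finset.sum_congr rfl
      intro k hk
      have hki : i ≠ k := fun h => hi (h ▸ hk)
      have h2 : (Finset.cons i s hi).erase k = Finset.cons i (s.erase k)
          (fun h => hi (Finset.mem_of_mem_erase h)) := by
        rw [Finset.erase_cons_of_ne _ hki]
      rw [h2]
      apply lintegral_congr
      intro γ
      rw [Finset.prod_cons]
    -- the last term
    have hR2 : ∫⁻ δ in t i, ∏ j ∈ s, E (t j ∩ Ioi δ) ∂E =
        ∑ k ∈ s, ∫⁻ γ in t k, E (t i ∩ Iic γ) * ∏ j ∈ s.erase k, E (t j ∩ Ioi γ) ∂E := by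
      have h1 : ∀ δ : ℝ, ∏ j ∈ s, E (t j ∩ Ioi δ) =
          ∑ k ∈ s, ∫⁻ γ in t k ∩ Ioi δ, ∏ j ∈ s.erase k, E (t j ∩ Ioi γ) ∂E := by
        intro δ
        rw [ih (fun j => t j ∩ Ioi δ) (fun j => (ht j).inter measurableSet_Ioi)]
        apply Finset.sum_congr rfl
        intro k _
        apply setLIntegral_congr_fun ((ht k).inter measurableSet_Ioi)
        intro γ hγ
        apply Finset.prod_congr rfl
        intro j _
        congr 1
        rw [inter_assoc, Ioi_inter_Ioi]
        have : δ < γ := hγ.2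
        rw [sup_eq_right.mpr this.le]
      simp only [h1]
      rw [lintegral_finsetSum']
      · apply Finset.sum_congr rfl
        intro k _
        exact swap_int E (hH k)
      · intro k _
        refine Measurable.aemeasurable (Antitone.measurable ?_)
        intro a b hab
        exact lintegral_mono_set (inter_subset_inter_right _ (Ioi_subset_Ioi hab))
    rw [hR1, hR2, ← Finset.sum_add_distrib, Finset.prod_cons, ih t ht, Finset.mul_sum]
    apply Finset.sum_congr rfl
    intro k _
    rw [← lintegral_const_mul _ (hH k), ← lintegral_add_left]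
    · apply lintegral_congr
      intro γ
      rw [← add_mul, split_meas E (A := t i) γ]
      ring
    · exact (meas_Iic E (t i)).mul (hH k)

/-! ### Exponential variables -/

theorem exp_eq (r : ℝ) : expMeasure r = volume.withDensity (exponentialPDF r) := rfl

theorem measurable_pdf (r : ℝ) : Measurable (exponentialPDF r) :=
  (measurable_exponentialPDFReal r).ennreal_ofReal

theorem prob_exp {r : ℝ} (hr : 0 < r) : IsProbabilityMeasure (expMeasure r) :=
  isProbabilityMeasure_expMeasure hr

theorem nullSingleton_exp (r : ℝ) : NullSingletonClass (expMeasure r) := by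
  rw [exp_eq]
  infer_instance

theorem exp_neg_zero (r : ℝ) : expMeasure r (Iio 0) = 0 := by
  rw [exp_eq, withDensity_apply _ measurableSet_Iio]
  exact lintegral_exponentialPDF_of_nonpos le_rfl

/-- memorylessness -/
theorem memoryless {γ : ℝ} (hγ : 0 ≤ γ) {t : Set ℝ} (ht : MeasurableSet t) :
    expMeasure 1 {x | γ + x ∈ t} = ENNReal.ofReal (Real.exp γ) * expMeasure 1 (t ∩ Ioi γ) := by
  have hm : MeasurableSet {x : ℝ | γ + x ∈ t} := (measurable_const_add γ) ht
  have hn := nullSingleton_exp 1
  have h0 : expMeasure 1 (t ∩ Ioi γ) = expMeasure 1 (t ∩ Ici γ) := by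
    apply measure_congr
    have h3 : (Ioi γ : Set ℝ) =ᵐ[expMeasure 1] Ici γ := Ioi_ae_eq_Ici
    exact (Filter.EventuallyEq.refl _ t).inter h3
  rw [h0, exp_eq, withDensity_apply _ hm, withDensity_apply _ (ht.inter measurableSet_Ici),
    ← lintegral_indicator hm, ← lintegral_indicator (ht.inter measurableSet_Ici),
    ← lintegral_const_mul _ ((measurable_pdf 1).indicator (ht.inter measurableSet_Ici))]
  rw [← lintegral_add_left_eq_self (μ := volume) (fun x => ENNReal.ofReal (Real.exp γ) *
    (t ∩ Ici γ).indicator (exponentialPDF 1) x) γ]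
  apply lintegral_congr
  intro x
  by_cases hx : γ + x ∈ t
  · by_cases hx0 : 0 ≤ x
    · rw [indicator_of_mem (show x ∈ {x : ℝ | γ + x ∈ t} from hx), indicator_of_mem
        (show γ + x ∈ t ∩ Ici γ from ⟨hx, by simpa using hx0⟩), exponentialPDF_of_nonneg hx0,
        exponentialPDF_of_nonneg (by linarith), ← ENNReal.ofReal_mul (Real.exp_pos _).le, one_mul,
        one_mul, one_mul, one_mul, ← Real.exp_add]
      congr 2
      ring
    · rw [indicator_of_mem (show x ∈ {x : ℝ | γ + x ∈ t} from hx), indicator_of_notMem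
        (show γ + x ∉ t ∩ Ici γ from fun h => hx0 (by simpa using h.2)),
        exponentialPDF_of_neg (not_le.mp hx0), mul_zero]
  · rw [indicator_of_notMem (show x ∉ {x : ℝ | γ + x ∈ t} from hx), indicator_of_notMem
        (show γ + x ∉ t ∩ Ici γ from fun h => hx h.1), mul_zero]

theorem exp_density (r : ℝ) : expMeasure r =
    (expMeasure 1).withDensity (fun x => ENNReal.ofReal (r * Real.exp (-((r - 1) * x)))) := by
  have hm : Measurable (fun x : ℝ => ENNReal.ofReal (r * Real.exp (-((r - 1) * x)))) := by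
    fun_prop
  rw [exp_eq r, exp_eq 1, ← withDensity_mul _ (measurable_pdf 1) hm]
  congr 1
  funext x
  rw [Pi.mul_apply]
  by_cases hx0 : 0 ≤ x
  · rw [exponentialPDF_of_nonneg hx0, exponentialPDF_of_nonneg hx0,
      ← ENNReal.ofReal_mul (by positivity)]
    congr 1
    rw [one_mul, one_mul, mul_left_comm, ← Real.exp_add]
    congr 2
    ring
  · rw [exponentialPDF_of_neg (not_le.mp hx0), exponentialPDF_of_neg (not_le.mp hx0), zero_mul]

/-- the first ring of several clocks -/
theorem first_ring {ι : Type} [DecidableEq ι] (s : Finset ι) (hs : s.Nonempty) (t : ι → Set ℝ)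
    (ht : ∀ i, MeasurableSet (t i)) :
    ∏ j ∈ s, expMeasure 1 (t j) = (s.card : ℝ≥0∞)⁻¹ * ∑ k ∈ s, ∫⁻ γ in t k,
      ∏ j ∈ s.erase k, expMeasure 1 {x | γ + x ∈ t j} ∂(expMeasure (s.card : ℝ)) := by
  have hp := prob_exp (r := 1) one_pos
  have hn := nullSingleton_exp 1
  have hM : 0 < s.card := Finset.card_pos.mpr hs
  have hMr : (0 : ℝ) < s.card := by exact_mod_cast hM
  have hm : Measurable (fun x : ℝ => ENNReal.ofReal
      ((s.card : ℝ) * Real.exp (-(((s.card : ℝ) - 1) * x)))) := by
    fun_prop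
  have key : ∀ k ∈ s, ∫⁻ γ in t k, ∏ j ∈ s.erase k, expMeasure 1 {x | γ + x ∈ t j}
      ∂(expMeasure (s.card : ℝ)) = (s.card : ℝ≥0∞) *
        ∫⁻ γ in t k, ∏ j ∈ s.erase k, expMeasure 1 (t j ∩ Ioi γ) ∂(expMeasure 1) := by
    intro k hk
    have hH : Measurable (fun γ : ℝ => ∏ j ∈ s.erase k, expMeasure 1 (t j ∩ Ioi γ)) :=
      Finset.measurable_fun_prod _ fun j _ => meas_Ioi _ (t j)
    have hH2 : Measurable (fun γ : ℝ => ∏ j ∈ s.erase k, expMeasure 1 {x | γ + x ∈ t j}) := by
      apply Finset.measurable_fun_prod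
      intro j _
      have h1 : MeasurableSet {p : ℝ × ℝ | p.1 + p.2 ∈ t j} :=
        (measurable_fst.add measurable_snd) (ht j)
      exact measurable_measure_prodMk_left h1
    rw [exp_density, restrict_withDensity (ht k), lintegral_withDensity_eq_lintegral_mul _ hm
      hH2, ← lintegral_const_mul _ hH]
    have hae : ∀ᵐ γ ∂((expMeasure 1).restrict (t k)), 0 ≤ γ := by
      apply ae_restrict_of_ae
      rw [ae_iff]
      have : {a : ℝ | ¬ 0 ≤ a} = Iio 0 := by
        ext x
        simp
      rw [this]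
      exact exp_neg_zero 1
    apply lintegral_congr_ae
    filter_upwards [hae] with γ hγ
    rw [Pi.mul_apply]
    have h1 : ∏ j ∈ s.erase k, expMeasure 1 {x | γ + x ∈ t j} =
        ENNReal.ofReal (Real.exp γ) ^ (s.card - 1) *
          ∏ j ∈ s.erase k, expMeasure 1 (t j ∩ Ioi γ) := by
      rw [Finset.prod_congr rfl (fun j _ => memoryless hγ (ht j)), Finset.prod_mul_distrib,
        Finset.prod_const, Finset.card_erase_of_mem hk]
    rw [h1, ← mul_assoc, ← ENNReal.ofReal_pow (Real.exp_pos _).le, ← ENNReal.ofReal_mul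
      (by positivity)]
    congr 1
    rw [← ENNReal.ofReal_natCast]
    congr 1
    rw [← Real.exp_nat_mul, mul_assoc, ← Real.exp_add, Nat.cast_sub hM, Nat.cast_one]
    ring_nf
    simp
  rw [Finset.sum_congr rfl key, ← Finset.mul_sum, ← mul_assoc, ENNReal.inv_mul_cancel
    (by exact_mod_cast hM.ne') (ENNReal.natCast_ne_top _), one_mul]
  exact minId _ s hs t ht

end Pool.Agent.Y31.ST
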