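import Pool.Agent.Y999.ST.Stm
import Pool.Agent.Y31.ST.Min

set_option autoImplicit false

/-!
# The superposition principle for independent exponential clocks (for MP_71af4b_pr)
-/

namespace Pool.Agent.Y31.ST

open MeasureTheory ProbabilityTheory Set
open scoped ENNReal
open Pool.Agent.Y999.ST

theorem ins_zero (s : Finset ℤ) (k : ℤ) (γ : ℝ) (g : ℤ × ℕ → ℝ) : ins s k γ g (k, 0) = γ := by
  simp [ins]

theorem ins_succ (s : Finset ℤ) (k : ℤ) (γ : ℝ) (g : ℤ × ℕ → ℝ) (n : ℕ) :
    ins s k γ g (k, n + 1) = g (k, n) := by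
  simp [ins]

theorem ins_other (s : Finset ℤ) (k : ℤ) (γ : ℝ) (g : ℤ × ℕ → ℝ) (j : ℤ) (hj : j ≠ k)
    (hs : j ∈ s) : ins s k γ g (j, 0) = γ + g (j, 0) := by
  simp [ins, hj, hs]

theorem ins_out (s : Finset ℤ) (k : ℤ) (γ : ℝ) (g : ℤ × ℕ → ℝ) (j : ℤ) (n : ℕ) (hj : j ≠ k)
    (hs : ¬ (j ∈ s ∧ n = 0)) : ins s k γ g (j, n) = g (j, n) := by
  simp only [ins, hj, if_false]
  rw [if_neg hs]

theorem measurable_ins (s : Finset ℤ) (k : ℤ) :
    Measurable (fun q : ℝ × (ℤ × ℕ → ℝ) => ins s k q.1 q.2) := by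
  rw [measurable_pi_iff]
  rintro ⟨j, n⟩
  by_cases hj : j = k
  · subst hj
    cases n with
    | zero => simp only [ins_zero]; exact measurable_fst
    | succ n => simp only [ins_succ]; exact (measurable_pi_apply _).comp measurable_snd
  · by_cases hs : j ∈ s ∧ n = 0
    · obtain ⟨hs, rfl⟩ := hs
      simp only [ins_other s k _ _ j hj hs]
      exact measurable_fst.add ((measurable_pi_apply _).comp measurable_snd)
    · simp only [ins_out s k _ _ j n hj hs]
      exact (measurable_pi_apply _).comp measurable_snd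

theorem prob_clk : IsProbabilityMeasure clk := by
  have hp := prob_exp (r := 1) one_pos
  unfold clk
  infer_instance

open Classical in
/-- the boxes with all the sets equal to the whole line outside a finite set -/
theorem clk_box (J : Finset (ℤ × ℕ)) (T : ℤ × ℕ → Set ℝ) (hT : ∀ p, MeasurableSet (T p)) :
    clk (Set.pi (J : Set (ℤ × ℕ)) T) = ∏ p ∈ J, expMeasure 1 (T p) := by
  have hp := prob_exp (r := 1) one_pos
  exact Measure.infinitePi_pi _ fun p _ => hT p

open Classical in
/-- the sets for the remaining waiting times -/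
noncomputable def rem (s : Finset ℤ) (k : ℤ) (T : ℤ × ℕ → Set ℝ) (γ : ℝ) (p : ℤ × ℕ) : Set ℝ :=
  if p.1 = k then T (k, p.2 + 1) else if p.1 ∈ s ∧ p.2 = 0 then {x | γ + x ∈ T p} else T p

theorem measurable_rem (s : Finset ℤ) (k : ℤ) (T : ℤ × ℕ → Set ℝ)
    (hT : ∀ p, MeasurableSet (T p)) (γ : ℝ) (p : ℤ × ℕ) : MeasurableSet (rem s k T γ p) := by
  unfold rem
  split_ifs
  · exact hT _
  · exact (measurable_const_add γ) (hT p)
  · exact hT p

theorem ins_mem_box (s F : Finset ℤ) (k : ℤ) (hk : k ∈ F) (N : ℕ) (T : ℤ × ℕ → Set ℝ)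
    (hTN : ∀ x n, N ≤ n → T (x, n) = univ) (γ : ℝ) (g : ℤ × ℕ → ℝ) :
    ins s k γ g ∈ Set.pi ((F ×ˢ Finset.range (N + 1) : Finset (ℤ × ℕ)) : Set (ℤ × ℕ)) T ↔
    γ ∈ T (k, 0) ∧ g ∈ Set.pi ((F ×ˢ Finset.range (N + 1) : Finset (ℤ × ℕ)) : Set (ℤ × ℕ))
      (rem s k T γ) := by
  simp only [Set.mem_pi, Finset.mem_coe, Finset.mem_product, Finset.mem_range, Prod.forall]
  constructor
  · intro h
    refine ⟨?_, ?_⟩
    · have := h k 0 ⟨hk, Nat.succ_pos N⟩
      rwa [ins_zero] at this
    · rintro j n ⟨hj, hn⟩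
      unfold rem
      simp only
      split_ifs with h1 h2
      · subst h1
        by_cases hnN : n + 1 < N + 1
        · have := h j (n + 1) ⟨hj, hnN⟩
          rwa [ins_succ] at this
        · rw [hTN _ _ (by omega)]
          trivial
      · obtain ⟨h2, rfl⟩ := h2
        have := h j 0 ⟨hj, hn⟩
        rwa [ins_other s k γ g j h1 h2] at this
      · have := h j n ⟨hj, hn⟩
        rwa [ins_out s k γ g j n h1 h2] at this
  · rintro ⟨h0, h⟩ j n ⟨hj, hn⟩
    by_cases h1 : j = k
    · subst h1
      cases n with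
      | zero => rw [ins_zero]; exact h0
      | succ n =>
        rw [ins_succ]
        have := h j n ⟨hj, by omega⟩
        unfold rem at this
        simp only [if_true] at this
        exact this
    · have h3 := h j n ⟨hj, hn⟩
      unfold rem at h3
      simp only [h1, if_false] at h3
      by_cases h2 : j ∈ s ∧ n = 0
      · rw [if_pos h2] at h3
        obtain ⟨h2, rfl⟩ := h2
        rw [ins_other s k γ g j h1 h2]
        exact h3
      · rw [if_neg h2] at h3
        rw [ins_out s k γ g j n h1 h2]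
        exact h3

theorem prod_rem (s F : Finset ℤ) (hsF : s ⊆ F) (k : ℤ) (hk : k ∈ s) (N : ℕ)
    (T : ℤ × ℕ → Set ℝ) (hTN : ∀ x n, N ≤ n → T (x, n) = univ) (γ : ℝ) :
    ∏ p ∈ F ×ˢ Finset.range (N + 1), expMeasure 1 (rem s k T γ p) =
    ((∏ x ∈ F, ∏ n ∈ Finset.range N, expMeasure 1 (T (x, n + 1))) *
      ∏ x ∈ F \ s, expMeasure 1 (T (x, 0))) *
      ∏ x ∈ s.erase k, expMeasure 1 {y | γ + y ∈ T (x, 0)} := by
  have hp := prob_exp (r := 1) one_pos
  rw [Finset.prod_product]
  have h1 : ∀ x ∈ F, ∏ n ∈ Finset.range (N + 1), expMeasure 1 (rem s k T γ (x, n)) =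
      (∏ n ∈ Finset.range N, expMeasure 1 (T (x, n + 1))) *
        (if x = k then 1 else if x ∈ s then expMeasure 1 {y | γ + y ∈ T (x, 0)}
          else expMeasure 1 (T (x, 0))) := by
    intro x _
    by_cases hx : x = k
    · subst hx
      rw [if_pos rfl, mul_one, Finset.prod_range_succ]
      have h2 : ∀ n, rem s x T γ (x, n) = T (x, n + 1) := by
        intro n
        unfold rem
        simp
      simp only [h2]
      rw [hTN x (N + 1) (by omega), measure_univ, mul_one]
    · rw [if_neg hx, Finset.prod_range_succ']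
      congr 1
      · apply Finset.prod_congr rfl
        intro n _
        unfold rem
        simp [hx]
      · unfold rem
        simp only [hx, if_false, and_true]
        split_ifs <;> rfl
  rw [Finset.prod_congr rfl h1, Finset.prod_mul_distrib, mul_assoc]
  congr 1
  rw [← Finset.prod_sdiff hsF]
  congr 1
  · apply Finset.prod_congr rfl
    intro x hx
    rw [Finset.mem_sdiff] at hx
    have hxk : x ≠ k := fun h => hx.2 (h ▸ hk)
    rw [if_neg hxk, if_neg hx.2]
  · rw [← Finset.mul_prod_erase s _ hk, if_pos rfl, one_mul]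
    apply Finset.prod_congr rfl
    intro x hx
    rw [if_neg (Finset.ne_of_mem_erase hx), if_pos (Finset.mem_of_mem_erase hx)]

theorem prod_box (s F : Finset ℤ) (hsF : s ⊆ F) (N : ℕ) (T : ℤ × ℕ → Set ℝ) :
    ∏ p ∈ F ×ˢ Finset.range (N + 1), expMeasure 1 (T p) =
    ((∏ x ∈ F, ∏ n ∈ Finset.range N, expMeasure 1 (T (x, n + 1))) *
      ∏ x ∈ F \ s, expMeasure 1 (T (x, 0))) * ∏ x ∈ s, expMeasure 1 (T (x, 0)) := by
  rw [Finset.prod_product, mul_assoc, Finset.prod_sdiff hsF, ← Finset.prod_mul_distrib]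
  apply Finset.prod_congr rfl
  intro x _
  rw [Finset.prod_range_succ']

theorem sup : StSUP := by
  classical
  intro s hs
  have hp := prob_exp (r := 1) one_pos
  have hclk := prob_clk
  have hM : 0 < s.card := Finset.card_pos.mpr hs
  have hMr : (0 : ℝ) < s.card := by exact_mod_cast hM
  have hpM := prob_exp hMr
  symm
  apply Measure.eq_infinitePi
  intro I t ht
  -- the enlarged box
  set N : ℕ := I.sup Prod.snd + 1 with hN
  set F : Finset ℤ := I.image Prod.fst ∪ s with hF
  have hsF : s ⊆ F := Finset.subset_union_right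
  set J : Finset (ℤ × ℕ) := F ×ˢ Finset.range (N + 1) with hJ
  set T : ℤ × ℕ → Set ℝ := fun p => if p ∈ I then t p else univ with hT
  have hTm : ∀ p, MeasurableSet (T p) := by
    intro p
    simp only [hT]
    split_ifs
    · exact ht p
    · exact MeasurableSet.univ
  have hIN : ∀ p ∈ I, p.2 < N := by
    intro p hp
    have : p.2 ≤ I.sup Prod.snd := Finset.le_sup (f := Prod.snd) hp
    omega
  have hIJ : I ⊆ J := by
    intro p hp
    rw [hJ, Finset.mem_product, Finset.mem_range]
    exact ⟨Finset.mem_union_left _ (Finset.mem_image_of_mem _ hp), (hIN p hp).trans (by omega)⟩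
  have hTN : ∀ x n, N ≤ n → T (x, n) = univ := by
    intro x n hn
    simp only [hT]
    rw [if_neg]
    intro h
    have := hIN _ h
    simp only at this
    omega
  have hbox : Set.pi (I : Set (ℤ × ℕ)) t = Set.pi (J : Set (ℤ × ℕ)) T := by
    ext g
    simp only [Set.mem_pi, Finset.mem_coe]
    constructor
    · intro h p _
      simp only [hT]
      split_ifs with h1
      · exact h p h1
      · trivial
    · intro h p hp
      have := h p (hIJ hp)
      simp only [hT, if_pos hp] at this
      exact this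
  have hprod : ∏ p ∈ I, expMeasure 1 (t p) = ∏ p ∈ J, expMeasure 1 (T p) := by
    rw [← Finset.prod_subset hIJ]
    · apply Finset.prod_congr rfl
      intro p hp
      simp only [hT, if_pos hp]
    · intro p _ hp
      simp only [hT, if_neg hp]
      exact measure_univ
  rw [hbox, hprod, Measure.smul_apply, Measure.finsetSum_apply, smul_eq_mul]
  have hboxm : MeasurableSet (Set.pi (J : Set (ℤ × ℕ)) T) :=
    MeasurableSet.pi J.countable_toSet fun p _ => hTm p
  set K : ℝ≥0∞ := (∏ x ∈ F, ∏ n ∈ Finset.range N, expMeasure 1 (T (x, n + 1))) *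
      ∏ x ∈ F \ s, expMeasure 1 (T (x, 0)) with hK
  have key : ∀ k ∈ s, (((expMeasure (s.card : ℝ)).prod clk).map (fun q => ins s k q.1 q.2))
      (Set.pi (J : Set (ℤ × ℕ)) T) = K * ∫⁻ γ in T (k, 0),
        ∏ j ∈ s.erase k, expMeasure 1 {x | γ + x ∈ T (j, 0)} ∂(expMeasure (s.card : ℝ)) := by
    intro k hk
    rw [Measure.map_apply (measurable_ins s k) hboxm,
      Measure.prod_apply ((measurable_ins s k) hboxm), ← lintegral_const_mul _, ←
      lintegral_indicator (hTm _)]
    · apply lintegral_congr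
      intro γ
      have h1 : Prod.mk γ ⁻¹' ((fun q : ℝ × (ℤ × ℕ → ℝ) => ins s k q.1 q.2) ⁻¹'
          Set.pi (J : Set (ℤ × ℕ)) T) = {g | γ ∈ T (k, 0) ∧
            g ∈ Set.pi (J : Set (ℤ × ℕ)) (rem s k T γ)} := by
        ext g
        exact ins_mem_box s F k (hsF hk) N T hTN γ g
      rw [h1]
      by_cases hγ : γ ∈ T (k, 0)
      · rw [indicator_of_mem hγ]
        have h2 : {g | γ ∈ T (k, 0) ∧ g ∈ Set.pi (J : Set (ℤ × ℕ)) (rem s k T γ)} =
            Set.pi (J : Set (ℤ × ℕ)) (rem s k T γ) := by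
          ext g
          exact and_iff_right hγ
        rw [h2, clk_box J _ (measurable_rem s k T hTm γ)]
        exact prod_rem s F hsF k hk N T hTN γ
      · rw [indicator_of_notMem hγ]
        have h2 : {g | γ ∈ T (k, 0) ∧ g ∈ Set.pi (J : Set (ℤ × ℕ)) (rem s k T γ)} = ∅ := by
          ext g
          constructor
          · intro h
            exact hγ h.1
          · intro h
            exact h.elim
        rw [h2, measure_empty]
    · apply Finset.measurable_fun_prod
      intro j _
      have h1 : MeasurableSet {p : ℝ × ℝ | p.1 + p.2 ∈ T (j, 0)} :=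
        (measurable_fst.add measurable_snd) (hTm _)
      exact measurable_measure_prodMk_left h1
  rw [Finset.sum_congr rfl key, ← Finset.mul_sum, mul_left_comm,
    ← first_ring s hs (fun x => T (x, 0)) (fun x => hTm _)]
  exact (prod_box s F hsF N T).symm

end Pool.Agent.Y31.ST
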